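import Pool.Agent.Lib.helper9.BinA
import Pool.Agent.Lib.helper9.SpA

namespace Pool.Agent.Results.MP_1ffe94_lc.InP

open Pool.Agent.Cx Finset Polynomial

open Classical in
/-- `f` is a majority dominating function of `G` -/
def MDF {V : Type} [Fintype V] (G : SimpleGraph V) (f : V → ℤ) : Prop :=
  (∀ v, f v = 1 ∨ f v = -1) ∧
    Fintype.card V ≤ 2 * (univ.filter fun v => 1 ≤ f v + ∑ u with G.Adj v u, f u).card

/-- the yes-instances of MAJ-CMP: part sizes `z.1` and bound `z.2` -/
def Maj (z : List ℤ × ℤ) : Prop :=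
  z.1 ≠ [] ∧ (∀ n ∈ z.1, 0 < n) ∧ 0 < z.2 ∧
    ∃ f : (Σ i : Fin z.1.length, Fin z.1[i].toNat) → ℤ,
      MDF (SimpleGraph.completeMultipartiteGraph _) f ∧ ∑ v, f v ≤ z.2

def sat (n p W : ℤ) : ℤ := if 2 * p - n + 2 ≤ W then n else if 2 * p - n ≤ W then p else 0

lemma cnt {n : ℕ} (f : Fin n → ℤ) (h : ∀ a, f a = 1 ∨ f a = -1) (W : ℤ) :
    ∑ a, f a = 2 * (univ.filter fun a => f a = 1).card - n ∧
    ((univ.filter fun a => 1 ≤ f a + (W - ∑ a, f a)).card : ℤ) = sat n (univ.filter fun a => f a = 1).card W := by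
  have e : ∑ a, f a = 2 * (univ.filter fun a => f a = 1).card - n := by
    rw [card_filter, Nat.cast_sum, mul_sum, eq_sub_iff_add_eq]
    simpa [sum_add_distrib] using sum_congr (s₁ := univ) rfl (f := fun a => f a + 1)
      (g := fun a => 2 * ((if f a = 1 then 1 else 0 : ℕ) : ℤ)) fun a _ => by rcases h a with c | c <;> simp [c]
  refine ⟨e, ?_⟩
  rw [sat, ← e]
  split_ifs with c d
  · rw [filter_true_of_mem fun a _ => by have := h a; omega]; simp
  · rw [filter_congr fun a _ => (by have := h a; omega : _ ↔ f a = 1)]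
  · rw [filter_false_of_mem fun a _ => by have := h a; omega]; simp

def Ok (m : ℕ) (n p : ℕ → ℤ) : Prop := ∀ i < m, 0 ≤ p i ∧ p i ≤ n i

def sl (m : ℕ) (n p : ℕ → ℤ) : ℤ := ∑ i ∈ range m, (2 * p i - n i)

def gn (m : ℕ) (n p : ℕ → ℤ) (W : ℤ) : ℤ := ∑ i ∈ range m, (2 * sat (n i) (p i) W - n i)

lemma step1 {m : ℕ} (N : Fin m → ℕ) (n : ℕ → ℤ) (e : ∀ i : Fin m, n i = N i) (k : ℤ) :
    (∃ f : (Σ i, Fin (N i)) → ℤ, MDF (SimpleGraph.completeMultipartiteGraph _) f ∧ ∑ v, f v ≤ k) ↔
    ∃ p, Ok m n p ∧ sl m n p ≤ k ∧ 0 ≤ gn m n p (sl m n p) := by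
  classical
  have key : ∀ f : (Σ i, Fin (N i)) → ℤ, (∀ v, f v = 1 ∨ f v = -1) → ∀ p : ℕ → ℤ,
      (∀ i : Fin m, p i = (univ.filter fun a => f ⟨i, a⟩ = 1).card) → ∑ v, f v = sl m n p ∧
      (MDF (SimpleGraph.completeMultipartiteGraph fun i => Fin (N i)) f ↔ 0 ≤ gn m n p (sl m n p)) :=
    fun f h p hp => by
      have a : ∑ v, f v = sl m n p := by
        rw [sl, sum_range, Fintype.sum_sigma]
        exact sum_congr rfl fun i _ => by rw [hp, e, (cnt _ (fun a => h _) 0).1]
      have b : ∀ v, ∑ u with (SimpleGraph.completeMultipartiteGraph fun i => Fin (N i)).Adj v u, f u =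
          sl m n p - ∑ a, f ⟨v.1, a⟩ := fun v => by
        rw [← a, eq_sub_iff_add_eq, sum_filter, Fintype.sum_sigma, Fintype.sum_sigma,
          ← sum_erase_add _ _ (mem_univ v.1), ← sum_erase_add _ _ (mem_univ v.1)]
        simp +contextual [sum_congr rfl, eq_comm (a := v.1)]
      refine ⟨a, (and_iff_right h).trans ?_⟩
      have b : ∀ v I, ∑ u ∈ @filter _ ((SimpleGraph.completeMultipartiteGraph fun i => Fin (N i)).Adj v) I univ,
        f u = sl m n p - ∑ a, f ⟨v.1, a⟩ := fun v I => by convert b v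
      simp only [b]
      rw [gn, sum_range, sum_sub_distrib, ← mul_sum, sub_nonneg, card_filter, Fintype.sum_sigma, ← Nat.cast_le (α := ℤ)]
      simp only [← card_filter, Fintype.card_sigma, Fintype.card_fin]
      push_cast
      simp only [e, hp, (cnt _ (fun a => h _) _).2]
  constructor
  · rintro ⟨f, h, c⟩
    obtain ⟨a, b⟩ := key f h.1 (fun i => if d : i < m then (univ.filter fun a => f ⟨⟨i, d⟩, a⟩ = 1).card else 0)
      (by simp)
    refine ⟨_, fun i d => ?_, a ▸ c, b.1 h⟩
    simpa [d, e ⟨i, d⟩] using card_le_univ (univ.filter fun a => f ⟨⟨i, d⟩, a⟩ = 1)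
  · rintro ⟨p, o, c, h⟩
    obtain ⟨a, b⟩ := key (fun v => if v.2.1 < (p v.1).toNat then 1 else -1) (fun v => by omega) p fun i => by
      have := o i i.2
      have := e i
      rw [filter_congr fun a _ => (by simp : _ ↔ a.1 < (p i).toNat), Fin.card_filter_val_lt]; omega
    exact ⟨_, b.2 h, a ▸ c⟩

lemma upd {m : ℕ} (g : ℕ → ℤ → ℤ) (p : ℕ → ℤ) {j : ℕ} (h : j < m) (x : ℤ) :
    ∑ i ∈ range m, g i (Function.update p j x i) = ∑ i ∈ range m, g i (p i) - g j (p j) + g j x := by
  rw [← sum_erase_add _ _ (mem_range.2 h), ← sum_erase_add _ _ (mem_range.2 h),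
    sum_congr rfl fun i hi => by rw [Function.update_of_ne (ne_of_mem_erase hi)]]
  simp

lemma raise {m : ℕ} {n : ℕ → ℤ} (d : ℕ) : ∀ p, Ok m n p → sl m n p = -2 * d → 0 ≤ gn m n p (sl m n p) →
    ∃ p, Ok m n p ∧ 0 ≤ sl m n p ∧ 0 ≤ gn m n p 0 := by
  induction d with
  | zero => exact fun p a b c => ⟨p, a, by simp [b], by simpa [b] using c⟩
  | succ d ih =>
    intro p a b c
    obtain ⟨j, h, e⟩ : ∃ j < m, p j < n j := by
      by_contra! e
      have : 0 ≤ sl m n p := sum_nonneg fun i hi => by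
        have := a i (mem_range.1 hi); have := e i (mem_range.1 hi); omega
      omega
    have s : sl m n (Function.update p j (p j + 1)) = sl m n p + 2 :=
      (upd (fun i x => 2 * x - n i) p h _).trans (by unfold sl; omega)
    refine ih (Function.update p j (p j + 1)) (fun i hi => ?_) (by omega) (c.trans (sum_le_sum fun i hi => ?_))
    · have := a i hi; by_cases c : i = j <;> simp [*] at *; omega
    · have := a i (mem_range.1 hi)
      by_cases c : i = j <;> simp only [s, c, sat, Function.update_self, Function.update_of_ne, ne_eq,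
        not_false_eq_true] at * <;> split_ifs <;> omega

lemma lower {m : ℕ} {n : ℕ → ℤ} (d : ℕ) : ∀ p, Ok m n p → sl m n p = 2 * d → 0 ≤ gn m n p 0 →
    ∃ p, Ok m n p ∧ sl m n p ≤ 0 ∧ 0 ≤ gn m n p (sl m n p) := by
  induction d with
  | zero => exact fun p a b c => ⟨p, a, by simp [b], by simpa [b] using c⟩
  | succ d ih =>
    intro p a b c
    obtain ⟨j, h, e⟩ : ∃ j < m, 0 < p j := by
      by_contra! e
      have : sl m n p ≤ 0 := sum_nonpos fun i hi => by
        have := a i (mem_range.1 hi); have := e i (mem_range.1 hi); omega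
      omega
    have s : sl m n (Function.update p j (p j - 1)) = sl m n p - 2 :=
      (upd (fun i x => 2 * x - n i) p h _).trans (by unfold sl; omega)
    refine ih (Function.update p j (p j - 1)) (fun i hi => ?_) (by omega) (c.trans (sum_le_sum fun i hi => ?_))
    · have := a i hi; by_cases c : i = j <;> simp [*] at *; omega
    · have := a i (mem_range.1 hi)
      by_cases c : i = j <;> simp only [c, sat, Function.update_self, Function.update_of_ne, ne_eq,
        not_false_eq_true] at * <;> split_ifs <;> omega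

lemma ext {m : ℕ} (g : ℕ → ℤ → ℤ) (p : ℕ → ℤ) (x : ℤ) :
    ∑ i ∈ range (m + 1), g i (Function.update p m x i) = ∑ i ∈ range m, g i (p i) + g m x := by
  rw [upd g p (by simp), sum_range_succ]; ring

lemma yes (n : ℕ → ℤ) (m : ℕ) (h : ∀ i < m, 0 < n i) :
    ∃ p, Ok m n p ∧ sl m n p ≤ 2 ∧ 0 ≤ gn m n p (sl m n p) := by
  obtain ⟨p, a, b⟩ : ∃ p : ℕ → ℤ, (∀ i < m, |2 * p i - n i| ≤ 1) ∧ (sl m n p = 1 ∨ sl m n p = 2 ∨
      (sl m n p = 0 ∧ ∀ i < m, 2 * p i = n i)) := by
    clear h
    induction m with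
    | zero => simp [sl]
    | succ m ih =>
      obtain ⟨p, a, b⟩ := ih
      have s := fun x => ext (m := m) (fun i x => 2 * x - n i) p x
      have t : ∀ x (Q : ℕ → ℤ → Prop), (∀ i < m + 1, Q i (Function.update p m x i)) ↔
          (∀ i < m, Q i (p i)) ∧ Q m x := fun x Q => by
        rw [Nat.forall_lt_succ_right, Function.update_self]
        exact and_congr_left' (forall₂_congr fun i hi => by rw [Function.update_of_ne hi.ne])
      refine ⟨Function.update p m (if sl m n p = 2 then n m / 2 else (n m + 1) / 2), ?_, ?_⟩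
      · exact (t _ fun i x => |2 * x - n i| ≤ 1).2 ⟨a, abs_le.2 (by omega)⟩
      · rw [t _ fun i x => 2 * x = n i]
        unfold sl at *
        rw [s]
        rcases b with b | b | ⟨b, c⟩
        · omega
        · omega
        · simp only [eq_true c, true_and]; omega
  refine ⟨p, fun i hi => ?_, by omega, sum_nonneg fun i hi => ?_⟩
  · have := abs_le.1 (a i hi); have := h i hi; omega
  · have := abs_le.1 (a i (mem_range.1 hi)); have := h i (mem_range.1 hi)
    unfold sat
    rcases b with b | b | ⟨b, c⟩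
    · omega
    · omega
    · have := c i (mem_range.1 hi); omega

def opts (n : ℤ) : List ℤ := [max (n.natAbs / 2 - 1) 0, n.natAbs / 2, n]

noncomputable def st (l : List ℤ) (S : List (ℤ × ℤ)) (j : ℕ) : List (ℤ × ℤ) :=
  prune (6 * l.length + 1) (fun w => (w.1 + 3 * l.length).toNat) (fun w => -w.2)
    (S.flatMap fun w => (opts (l.getD j 0)).map fun p => (-max (-(w.1 + 2 * p - l.getD j 0)) (-(3 * l.length)),
      w.2 + 2 * sat (l.getD j 0) p 0 - l.getD j 0))

lemma dp (l : List ℤ) (h : ∀ i, 0 ≤ l.getD i 0) (j : ℕ) (hj : j ≤ l.length) :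
    (∀ w ∈ (List.range j).foldl (st l) [(0, 0)], -3 * j ≤ w.1 ∧ w.1 ≤ 3 * l.length ∧
      ∃ p, Ok j (l.getD · 0) p ∧ w.1 ≤ sl j (l.getD · 0) p ∧ w.2 = gn j (l.getD · 0) p 0) ∧
    ∀ p, Ok j (l.getD · 0) p → ∃ w ∈ (List.range j).foldl (st l) [(0, 0)],
      min (sl j (l.getD · 0) p) (3 * l.length - 3 * j) ≤ w.1 ∧ gn j (l.getD · 0) p 0 ≤ w.2 := by
  induction j with
  | zero => simp [sl, gn, Ok]
  | succ j ih =>
    obtain ⟨a, b⟩ := ih (by omega)
    have := h j
    rw [List.range_succ, List.foldl_append]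
    refine (fun A B => ⟨A, B A⟩) ?_ fun A => ?_
    · intro w hw
      obtain ⟨u, hu, hw⟩ := List.mem_flatMap.1 (prune_sub hw)
      obtain ⟨x, hx, rfl⟩ := List.mem_map.1 hw
      obtain ⟨c, d, p, o, e1, e2⟩ := a u hu
      simp only [opts, List.mem_cons, List.not_mem_nil, or_false] at hx
      refine ⟨by omega, by omega, Function.update p j x, fun i hi => ?_, ?_, ?_⟩
      · by_cases g : i = j
        · subst g; simp only [Function.update_self]; omega
        · simpa [g] using o i (by omega)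
      · rw [sl, ext fun i x => 2 * x - l.getD i 0]; simp only [sl] at e1 ⊢; omega
      · rw [gn, ext fun i x => 2 * sat (l.getD i 0) x 0 - l.getD i 0]; simp only [gn] at e2 ⊢; omega
    · intro p o
      obtain ⟨u, hu, c, d⟩ := b p fun i hi => o i (by omega)
      have := o j (by omega)
      have := (a u hu).1
      obtain ⟨x, hx, e⟩ : ∃ x ∈ opts (l.getD j 0), p j ≤ x ∧ -3 ≤ 2 * x - l.getD j 0 ∧
          sat (l.getD j 0) (p j) 0 ≤ sat (l.getD j 0) x 0 := by
        simp only [opts, List.mem_cons, List.not_mem_nil, or_false, exists_eq_or_imp, exists_eq_left, sat] at *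
        omega
      refine (prune_dom (List.mem_flatMap.2 ⟨u, hu, List.mem_map.2 ⟨x, hx, rfl⟩⟩) ?_).imp
        fun w f => ⟨f.1, ?_⟩
      · simp only; omega
      obtain ⟨hw, f1, f2⟩ := f
      have := (A w hw).1
      simp only [neg_le_neg_iff, Int.cast_le] at f1 f2
      simp only [sl, gn, sum_range_succ] at *
      omega

lemma pt_dp : PT fun l : List ℤ => (List.range l.length).foldl (st (l.map fun n => max n 0)) [(0, 0)] := by
  classical
  have c : ∀ {α : Type} [Enc α] {n : α → ℕ}, PT n → PT fun a => (n a : ℤ) := fun h =>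
    (h.replicate (PT.const (1 : ℤ))).sumZ.of_eq fun a => by simp
  have o : PT opts := by
    have : PT fun n : ℤ => (n.natAbs / 2 : ℤ) := (PT.binZ (PT.natAbs PT.id).tail).of_eq fun n => by
      have := bin_bits n.natAbs
      cases e : n.natAbs.bits with
      | nil => simp only [e, bin, List.tail_nil] at *; omega
      | cons b l => have := b.toNat_le; simp only [e, bin, List.tail_cons] at *; omega
    unfold opts; fun_prop
  have s : PT fun z : ℤ × ℤ => sat z.1 z.2 0 :=
    PP.ite (by fun_prop) (by fun_prop) (PP.ite (by fun_prop) (by fun_prop) (by fun_prop))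
  have L : PT fun l : List ℤ => (l.length : ℤ) := c (by fun_prop)
  have K : PT fun z : List ℤ × List (ℤ × ℤ) × ℕ => z.2.1.flatMap fun w => (opts (z.1.getD z.2.2 0)).map fun p =>
      (-max (-(w.1 + 2 * p - z.1.getD z.2.2 0)) (-(3 * z.1.length)),
      w.2 + 2 * sat (z.1.getD z.2.2 0) p 0 - z.1.getD z.2.2 0) := by fun_prop
  have E : PP fun z : List ℤ × (ℤ × ℤ) × ℕ => (z.2.1.1 + 3 * z.1.length).toNat = z.2.2 :=
    let ⟨_, h, e⟩ := (show PP fun z : List ℤ × (ℤ × ℤ) × ℕ => max (z.2.1.1 + 3 * z.1.length) 0 = z.2.2 from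
      PP.eq (by fun_prop) (c (by fun_prop))); ⟨_, h, fun a => by rw [← e]; omega⟩
  have R : PP fun z : ℤ × ℤ => -(z.1 : ℝ) ≤ -z.2 :=
    let ⟨_, h, e⟩ := (show PP fun z : ℤ × ℤ => z.2 ≤ z.1 by fun_prop); ⟨_, h, fun a => by simp [← e]⟩
  have S : PT fun z : List ℤ × List (ℤ × ℤ) × ℕ => st z.1 z.2.1 z.2.2 :=
    PT.filterMap (PT.find? (PP.decide (PP.and (E.comp (f := fun z : ((List ℤ × List (ℤ × ℤ) × ℕ) × ℕ) × ℤ × ℤ =>
      (z.1.1.1, z.2, z.1.2)) (by fun_prop)) (PP.ball (PP.imp (E.comp (f := fun z : (((List ℤ × List (ℤ × ℤ) × ℕ) ×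
        ℕ) × ℤ × ℤ) × ℤ × ℤ => (z.1.1.1.1, z.2, z.1.1.2)) (by fun_prop)) (R.comp (f := fun z : (((List ℤ ×
        List (ℤ × ℤ) × ℕ) × ℕ) × ℤ × ℤ) × ℤ × ℤ => (z.1.2.2, z.2.2)) (by fun_prop)))
        (K.comp (by fun_prop))))) (K.comp (by fun_prop))) (by fun_prop)
  refine PT.foldl (S.comp (f := fun z : List ℤ × List (ℤ × ℤ) × ℕ => (z.1.map fun n => max n 0, z.2))
    (by fun_prop)) (by fun_prop) (by fun_prop) ((6 * X + 1) * (16 * X + 29 + 1) + 1) fun l i => ?_
  rw [List.take_range]
  have l1 := length_lt_size l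
  have h := (dp (l.map fun n => max n 0) (fun i => by
    rw [List.getD_eq_getElem?_getD, List.getElem?_map]; cases l[i]? <;> simp) (min i l.length) (by simp)).1
  refine (size_list_le _ (16 * size l + 29) fun w hw => ?_).trans ?_
  · obtain ⟨a, b, p, o, -, e⟩ := h w hw
    have t : (size l : ℤ) < 2 ^ size l := by exact_mod_cast Nat.lt_two_pow_self
    have u : ∀ i, |(l.map fun n => max n 0).getD i 0| ≤ 2 ^ size l := fun i => by
      rw [List.getD_eq_getElem?_getD, List.getElem?_map]
      cases c : l[i]? with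
      | none => simp
      | some x =>
        have := (abs_lt_size x).trans_le
          (pow_le_pow_right₀ one_le_two (size_lt_of_mem (List.mem_of_getElem? c)).le)
        simp only [Option.map_some, Option.getD_some, abs_lt, abs_le] at *; omega
    have := size_int_le (z := w.1) (k := size l + 2) (by simp [abs_lt, pow_add] at *; omega)
    have := size_int_le (z := w.2) (k := size l + size l) (by
      rw [e, pow_add]
      refine ((abs_sum_le_sum_abs _ _).trans (sum_le_card_nsmul _ _ (2 ^ size l) fun i hi => ?_)).trans_lt ?_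
      · have := o i (mem_range.1 hi); have := u i
        simp only [abs_le, sat] at *; omega
      · simp only [card_range, nsmul_eq_mul]; gcongr; omega)
    obtain ⟨w1, w2⟩ := w
    simp at *; omega
  · simp only [eval_add, eval_mul, eval_X, eval_ofNat, eval_one]
    gcongr
    cases min i l.length with
    | zero => simp
    | succ j =>
      rw [List.range_succ, List.foldl_append]
      exact (List.length_filterMap_le _ _).trans (by simp; omega)

theorem result : InP (Lang Maj) := by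
  classical
  obtain ⟨f, hf, e⟩ : PP fun z : List ℤ × ℤ => z.1 ≠ [] ∧ (∀ n ∈ z.1, 0 < n) ∧ 0 < z.2 ∧ (2 ≤ z.2 ∨
      z.1.sum.natAbs.bits.headD false = true ∨
      ∃ w ∈ (List.range z.1.length).foldl (st (z.1.map fun n => max n 0)) [(0, 0)], 0 ≤ w.1 ∧ 0 ≤ w.2) := by
    have : PT fun z : List ℤ × ℤ => z.1.sum.natAbs.bits := PT.natAbs (by fun_prop)
    exact PP.and (by fun_prop) (PP.and (PP.ball (by fun_prop) (by fun_prop)) (PP.and (by fun_prop)
      (PP.or (by fun_prop) (PP.or ⟨_, by fun_prop, fun _ => Iff.rfl⟩ (PP.bex (by fun_prop) (pt_dp.comp PT.id.fst))))))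
  refine inP_Lang hf fun ⟨l, k⟩ => (and_congr_right' (and_congr_right fun h => and_congr_right fun hk => ?_)).trans (e _)
  have g : ∀ i < l.length, 0 < l.getD i 0 := fun i hi => h _ (by simp [hi])
  rw [step1 _ (l.getD · 0) fun i => by have := g i i.2; simp at *; omega,
    show (l.map fun n => max n 0) = l from (List.map_congr_left fun n hn => max_eq_left (h n hn).le).trans l.map_id]
  obtain ⟨a, b⟩ := dp l (fun i => (lt_or_ge i l.length).elim (g i · |>.le) fun c => by simp [c]) _ le_rfl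
  have par : ∀ p, sl l.length (l.getD · 0) p % 2 = l.sum % 2 := fun p => by
    have : ∑ i ∈ range l.length, l.getD i 0 = l.sum := by simp [sum_range]
    rw [sl, sum_sub_distrib, ← mul_sum, this]; omega
  have od : l.sum.natAbs.bits.headD false = true ↔ l.sum % 2 = 1 := by
    have := bin_bits l.sum.natAbs
    cases e : l.sum.natAbs.bits with
    | nil => simp [e, bin] at *; omega
    | cons b r => cases b <;> simp [e, bin, -Nat.cast_natAbs] at * <;> omega
  obtain ⟨q, q1, q2, q3⟩ := yes _ _ g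
  have := par q
  simp only [od] at *
  by_cases c : 2 ≤ k ∨ l.sum % 2 = 1
  · exact iff_of_true ⟨q, q1, by omega, q3⟩ (by tauto)
  simp only [← or_assoc, c, false_or]
  constructor
  · rintro ⟨p, o, c1, c2⟩
    have := par p
    obtain ⟨p, o, c1, c2⟩ := raise (-sl l.length (l.getD · 0) p / 2).toNat p o (by omega) c2
    obtain ⟨w, hw, d⟩ := b p o
    exact ⟨w, hw, by omega⟩
  · rintro ⟨w, hw, d⟩
    obtain ⟨-, -, p, o, c1, c2⟩ := a w hw
    have := par p
    obtain ⟨p, o, c1, c2⟩ := lower (sl l.length (l.getD · 0) p / 2).toNat p o (by omega) (by omega)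
    exact ⟨p, o, by omega, c2⟩

end Pool.Agent.Results.MP_1ffe94_lc.InP
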